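import Pool.Agent.X164.FM.Stage
set_option autoImplicit false

/-! Entropy of `X - m X'`. -/

open scoped Classical
set_option linter.unusedSectionVars false
set_option linter.unusedVariables false

namespace Pool.Agent.X164.WM

open H137.PFR H137.TwoPow H137.Weak

variable {Ω : Type*} [Fintype Ω] {G : Type*} [AddCommGroup G] {w : Ω → ℝ}

/-- `H (X - n X')` -/
noncomputable def dil (w : Ω → ℝ) (X : Ω → G) (n : ℕ) : ℝ :=
  Hg (prod w w) (fun p => X p.1 - n • X p.2)

theorem dil_one (X : Ω → G) : dil w X 1 = Hg w X + kap w X := by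
  unfold dil kap
  simp only [one_smul]
  ring

theorem dil_succ (hw : Law w) (X : Ω → G) (n : ℕ) :
    dil w X (n + 1) ≤ dil w X n + 2 * kap w X := by
  have hl := law_prod (law_prod hw hw) hw
  have hfull := Hg_prod3 hw hw hw X X X
  have a1 : Hg (prod (prod w w) w) (fun p => ((X p.1.1, X p.1.2), X p.2)) +
      Hg (prod (prod w w) w) (fun p => X p.1.1 - n • X p.1.2 - X p.2) ≤
      Hg (prod (prod w w) w) (fun p => (X p.1.1 - n • X p.1.2, X p.2)) +
      Hg (prod (prod w w) w) (fun p => (X p.1.1 - X p.2, X p.1.2)) := by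
    refine Hg_sub_of hl ?_ ?_ ?_
    · intro p q h
      simp only [Prod.mk.injEq] at h
      rw [h.1, h.2]
    · intro p q h
      simp only [Prod.mk.injEq] at h
      rw [sub_right_comm, sub_right_comm (X q.1.1), h.1, h.2]
    · intro p q h3 h4
      simp only [Prod.mk.injEq] at h3 h4
      have h5 : X p.1.1 = X q.1.1 := by
        have := h4.1
        rw [h3.2] at this
        exact sub_left_inj.1 this
      exact Prod.ext (Prod.ext h5 h4.2) h3.2
  have a2 := Hg_add_of hl (X := fun p : (Ω × Ω) × Ω => X p.1.1 - n • X p.1.2)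
    (Y := fun p : (Ω × Ω) × Ω => X p.2)
    (W := fun p : (Ω × Ω) × Ω => (X p.1.1 - n • X p.1.2, X p.2))
    (fun p q h3 h4 => Prod.ext h3 h4)
  have a3 := Hg_add_of hl (X := fun p : (Ω × Ω) × Ω => X p.1.1 - X p.2)
    (Y := fun p : (Ω × Ω) × Ω => X p.1.2)
    (W := fun p : (Ω × Ω) × Ω => (X p.1.1 - X p.2, X p.1.2))
    (fun p q h3 h4 => Prod.ext h3 h4)
  have a4 : Hg (prod (prod w w) w) (fun p => X p.1.1 - n • X p.1.2) =
      Hg (prod w w) (fun p => X p.1 - n • X p.2) :=
    Hg_12 hw hw hw (fun p : Ω × Ω => X p.1 - n • X p.2)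
  have a5 : Hg (prod (prod w w) w) (fun p => X p.1.1 - X p.2) =
      Hg (prod w w) (fun p => X p.1 - X p.2) :=
    Hg_13 hw hw hw (fun p : Ω × Ω => X p.1 - X p.2)
  have a6 : Hg (prod (prod w w) w) (fun p => X p.2) = Hg w X := Hg_snd (law_prod hw hw) hw X
  have a7 : Hg (prod (prod w w) w) (fun p => X p.1.2) = Hg w X := by
    rw [Hg_12 hw hw hw (fun p : Ω × Ω => X p.2), Hg_snd hw hw X]
  have b1 : Hg (prod (prod w w) w) (fun p => ((X p.1.1, X p.1.2), X p.2)) +
      Hg (prod (prod w w) w) (fun p => X p.1.1 - (n + 1) • X p.1.2) ≤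
      Hg (prod (prod w w) w) (fun p => (X p.1.1 - n • X p.1.2 - X p.2, X p.2 - X p.1.2)) +
      Hg (prod (prod w w) w) (fun p => (X p.1.1, X p.1.2)) := by
    refine Hg_sub_of hl ?_ ?_ ?_
    · intro p q h
      simp only [Prod.mk.injEq] at h
      have e1 : X p.1.1 - (n + 1) • X p.1.2 =
        (X p.1.1 - n • X p.1.2 - X p.2) + (X p.2 - X p.1.2) := by
        rw [succ_nsmul]; abel
      have e2 : X q.1.1 - (n + 1) • X q.1.2 =
        (X q.1.1 - n • X q.1.2 - X q.2) + (X q.2 - X q.1.2) := by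
        rw [succ_nsmul]; abel
      rw [e1, e2, h.1, h.2]
    · intro p q h
      simp only [Prod.mk.injEq] at h
      rw [h.1, h.2]
    · intro p q h3 h4
      simp only [Prod.mk.injEq] at h3 h4
      have h5 : X p.2 = X q.2 := by
        have := h3.2
        rw [h4.2] at this
        exact sub_left_inj.1 this
      exact Prod.ext (Prod.ext h4.1 h4.2) h5
  have b2 := Hg_add_of hl (X := fun p : (Ω × Ω) × Ω => X p.1.1 - n • X p.1.2 - X p.2)
    (Y := fun p : (Ω × Ω) × Ω => X p.2 - X p.1.2)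
    (W := fun p : (Ω × Ω) × Ω => (X p.1.1 - n • X p.1.2 - X p.2, X p.2 - X p.1.2))
    (fun p q h3 h4 => Prod.ext h3 h4)
  have b4 : Hg (prod (prod w w) w) (fun p => X p.2 - X p.1.2) =
      Hg (prod w w) (fun p => X p.1 - X p.2) := by
    rw [Hg_23 hw hw hw (fun p : Ω × Ω => X p.2 - X p.1), Hg_swap hw hw]
  have b5 : Hg (prod (prod w w) w) (fun p => (X p.1.1, X p.1.2)) = Hg w X + Hg w X := by
    rw [Hg_12 hw hw hw (fun p : Ω × Ω => (X p.1, X p.2)), Hg_prod hw hw]
  have b6 : Hg (prod (prod w w) w) (fun p => X p.1.1 - (n + 1) • X p.1.2) =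
      Hg (prod w w) (fun p => X p.1 - (n + 1) • X p.2) :=
    Hg_12 hw hw hw (fun p : Ω × Ω => X p.1 - (n + 1) • X p.2)
  unfold dil kap
  linarith

/-- images under homomorphisms -/
theorem hom_cost (hw : Law w) {Q : Type*} [AddCommGroup Q] (X Y : Ω → G) (φ : G →+ Q) :
    Hg (prod w w) (fun p => φ (X p.1) - φ (Y p.2)) + Hg w X ≤
      Hg (prod w w) (fun p => X p.1 - Y p.2) + Hg w (fun ω => φ (X ω)) := by
  have hl := law_prod hw hw
  have h1 : Hg (prod w w) (fun p => (X p.1, Y p.2)) +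
      Hg (prod w w) (fun p => φ (X p.1) - φ (Y p.2)) ≤
      Hg (prod w w) (fun p => X p.1 - Y p.2) +
      Hg (prod w w) (fun p => (φ (X p.1), Y p.2)) := by
    refine Hg_sub_of hl ?_ ?_ ?_
    · intro p q h
      rw [← map_sub, ← map_sub, h]
    · intro p q h
      simp only [Prod.mk.injEq] at h
      rw [h.1, h.2]
    · intro p q h3 h4
      simp only [Prod.mk.injEq] at h4
      rw [h4.2] at h3
      exact Prod.ext (sub_left_inj.1 h3) h4.2
  have h2 := Hg_prod hw hw (fun ω => φ (X ω)) Y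
  have h3 := Hg_prod hw hw X Y
  linarith

theorem dil_two (hw : Law w) (X : Ω → G) : dil w X 2 ≤ Hg w X + 3 * kap w X := by
  have h1 := Hg_dilate hw X
  unfold dil
  simp only [two_nsmul]
  exact h1

theorem dil_double (hw : Law w) (X : Ω → G) (n : ℕ) :
    dil w X (2 * n) ≤ dil w X n + 3 * kap w X := by
  have hl := law_prod (law_prod hw hw) hw
  have hfull := Hg_prod3 hw hw hw X X (fun ω => (2 : ℕ) • X ω)
  have b1 : Hg (prod (prod w w) w) (fun p => ((X p.1.1, X p.1.2), (2 : ℕ) • X p.2)) +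
      Hg (prod (prod w w) w) (fun p => X p.1.1 - (2 * n) • X p.1.2) ≤
      Hg (prod (prod w w) w) (fun p => (X p.1.1 - (2 : ℕ) • X p.2,
        (2 : ℕ) • X p.2 - (2 * n) • X p.1.2)) +
      Hg (prod (prod w w) w) (fun p => (X p.1.1, X p.1.2)) := by
    refine Hg_sub_of hl ?_ ?_ ?_
    · intro p q h
      simp only [Prod.mk.injEq] at h
      have e1 : X p.1.1 - (2 * n) • X p.1.2 =
        (X p.1.1 - (2 : ℕ) • X p.2) + ((2 : ℕ) • X p.2 - (2 * n) • X p.1.2) := by abel
      have e2 : X q.1.1 - (2 * n) • X q.1.2 =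
        (X q.1.1 - (2 : ℕ) • X q.2) + ((2 : ℕ) • X q.2 - (2 * n) • X q.1.2) := by abel
      rw [e1, e2, h.1, h.2]
    · intro p q h
      simp only [Prod.mk.injEq] at h
      rw [h.1, h.2]
    · intro p q h3 h4
      simp only [Prod.mk.injEq] at h3 h4
      have h5 : (2 : ℕ) • X p.2 = (2 : ℕ) • X q.2 := by
        have := h3.1
        rw [h4.1] at this
        exact sub_right_inj.1 this
      exact Prod.ext (Prod.ext h4.1 h4.2) h5
  have b2 := Hg_add_of hl (X := fun p : (Ω × Ω) × Ω => X p.1.1 - (2 : ℕ) • X p.2)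
    (Y := fun p : (Ω × Ω) × Ω => (2 : ℕ) • X p.2 - (2 * n) • X p.1.2)
    (W := fun p : (Ω × Ω) × Ω => (X p.1.1 - (2 : ℕ) • X p.2,
        (2 : ℕ) • X p.2 - (2 * n) • X p.1.2))
    (fun p q h3 h4 => Prod.ext h3 h4)
  have b3 : Hg (prod (prod w w) w) (fun p => X p.1.1 - (2 : ℕ) • X p.2) = dil w X 2 :=
    Hg_13 hw hw hw (fun p : Ω × Ω => X p.1 - (2 : ℕ) • X p.2)
  have b4 : Hg (prod (prod w w) w) (fun p => (2 : ℕ) • X p.2 - (2 * n) • X p.1.2) =
      Hg (prod w w) (fun p => (2 : ℕ) • X p.1 - (2 * n) • X p.2) := by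
    rw [Hg_23 hw hw hw (fun p : Ω × Ω => (2 : ℕ) • X p.2 - (2 * n) • X p.1), Hg_swap hw hw]
  have b5 : Hg (prod (prod w w) w) (fun p => (X p.1.1, X p.1.2)) = Hg w X + Hg w X := by
    rw [Hg_12 hw hw hw (fun p : Ω × Ω => (X p.1, X p.2)), Hg_prod hw hw]
  have b6 : Hg (prod (prod w w) w) (fun p => X p.1.1 - (2 * n) • X p.1.2) = dil w X (2 * n) :=
    Hg_12 hw hw hw (fun p : Ω × Ω => X p.1 - (2 * n) • X p.2)
  have c1 := hom_cost hw X (fun ω => n • X ω) (nsmulAddMonoidHom 2)
  have c2 : Hg (prod w w) (fun p => (nsmulAddMonoidHom 2 : G →+ G) (X p.1) -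
      (nsmulAddMonoidHom 2 : G →+ G) (n • X p.2)) =
      Hg (prod w w) (fun p => (2 : ℕ) • X p.1 - (2 * n) • X p.2) := by
    congr 1
    funext p
    simp only [nsmulAddMonoidHom_apply, smul_smul]
  have c3 : Hg w (fun ω => (nsmulAddMonoidHom 2 : G →+ G) (X ω)) =
      Hg w (fun ω => (2 : ℕ) • X ω) := rfl
  rw [c2, c3] at c1
  have c4 : Hg (prod w w) (fun p => X p.1 - n • X p.2) = dil w X n := rfl
  have c5 := dil_two hw X
  linarith

/-- **Dilates.** -/
theorem dil_le (hw : Law w) (X : Ω → G) (n : ℕ) (hn : 1 ≤ n) :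
    dil w X n ≤ Hg w X + (5 * Nat.log 2 n + 1) * kap w X := by
  have hk := kap_nonneg hw X
  induction n using Nat.strong_induction_on with
  | _ n ih =>
    by_cases h1 : n = 1
    · subst h1
      rw [dil_one, Nat.log_one_right]
      push_cast
      linarith
    · have h2 : 2 ≤ n := by omega
      have h3 : Nat.log 2 n = Nat.log 2 (n / 2) + 1 := Nat.log_of_one_lt_of_le (by norm_num) h2
      have h4 := ih (n / 2) (by omega) (by omega)
      have h5 := dil_double hw X (n / 2)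
      rw [h3]
      push_cast
      rcases Nat.even_or_odd n with he | ho
      · have e : 2 * (n / 2) = n := by
          obtain ⟨a, ha⟩ := he
          omega
        rw [e] at h5
        nlinarith
      · have e : 2 * (n / 2) + 1 = n := by
          obtain ⟨a, ha⟩ := ho
          omega
        have h6 := dil_succ hw X (2 * (n / 2))
        rw [e] at h6
        nlinarith

end Pool.Agent.X164.WM
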