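import Pool.Agent.X164.RD.IntFree
import Pool.Agent.X164.WM.Final
set_option autoImplicit false
set_option exponentiation.threshold 100000

/-! Groups without torsion coprime to `m₀`. -/

namespace Pool.Agent.X164.WM

open Finset
open scoped Pointwise
open Pool.Agent.Y806.DF Pool.Agent.X164.MG Pool.Agent.X164.RD

theorem wm_nat {m₀ : ℕ} (hm₀ : 2 ≤ m₀) : ∃ c : ℕ, 1 ≤ c ∧ ∀ {Γ : Type*} [AddCommGroup Γ]
    [d : DecidableEq Γ] (K : ℝ) (A : Finset Γ), A.Nonempty →
    ((A + A).card : ℝ) ≤ K * (A.card : ℝ) →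
    ∃ (P : AddSubgroup Γ) (S T : Finset Γ), Finite P ∧
      (((A : Set Γ) + (P : Set Γ)).ncard : ℝ) ≤ 2 * K ^ c * A.card ∧
      (2 : ℝ) ^ S.card ≤ c * K ^ c ∧ (T.card : ℝ) ≤ K ^ c ∧
      ∀ a ∈ A, ∃ t ∈ T, ∃ o : Γ, (∃ n : ℕ, n.Coprime m₀ ∧ n • o = 0) ∧
        a - t - o ∈ P ⊔ AddSubgroup.closure (S : Set Γ) := by
  obtain ⟨t, ht⟩ : ∃ t : ℕ, t = Nat.log 2 m₀ + 1 := ⟨_, rfl⟩
  have hu1 : 1 ≤ 2 ^ t := Nat.one_le_two_pow
  refine ⟨1968208 * t + 2 + 2 ^ t, by omega, ?_⟩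
  intro Γ _ d K A hA hK
  have hK1 : 1 ≤ K := one_le hA hK
  have hd : d = (fun a b => Classical.propDecidable (a = b)) := Subsingleton.elim _ _
  subst hd
  have hK0 : 0 < K := by linarith
  obtain ⟨P, S, T, h1, -, -, h6, h2, -, h4, h5⟩ := weak_marton_mod hm₀ hA hK
  rw [← ht] at h6 h4
  have ht2 : ((Nat.log 2 m₀ : ℕ) : ℝ) + 1 = t := by rw [ht]; push_cast; ring
  rw [ht2] at h2
  refine ⟨P, S, T, h1, ?_, ?_, ?_, h5⟩
  · refine h6.trans (mul_le_mul_of_nonneg_right ?_ (Nat.cast_nonneg _))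
    exact mul_le_mul_of_nonneg_left (pow_le_pow_right₀ hK1 (by omega)) (by norm_num)
  · have hl := Real.log_two_lt_d9
    have hl0 := Real.log_two_gt_d9
    have hlK : 0 ≤ Real.log K := Real.log_nonneg hK1
    have g1 : Real.log ((2 : ℝ) ^ S.card) ≤ Real.log (2 ^ t * K ^ (1968208 * t)) := by
      rw [Real.log_pow, Real.log_mul (by positivity) (by positivity), Real.log_pow, Real.log_pow]
      have e1 : 0 ≤ (t : ℝ) * Real.log K := by positivity
      have e2 : 0 ≤ (t : ℝ) * Real.log K * (1968208 - 2500000 * Real.log 2) :=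
        mul_nonneg e1 (by linarith)
      calc (S.card : ℝ) * Real.log 2 ≤ (t * (2500000 * Real.log K + 1)) * Real.log 2 :=
            mul_le_mul_of_nonneg_right h2 (by linarith)
        _ = t * Real.log 2 + (t : ℝ) * Real.log K * (2500000 * Real.log 2) := by ring
        _ ≤ t * Real.log 2 + ((1968208 * t : ℕ) : ℝ) * Real.log K := by push_cast; linarith
    have g2 := (Real.log_le_log_iff (by positivity) (by positivity)).1 g1
    refine g2.trans ?_
    have g3 : (2 : ℝ) ^ t ≤ ((1968208 * t + 2 + 2 ^ t : ℕ) : ℝ) := by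
      push_cast
      have : (0 : ℝ) ≤ (t : ℝ) := Nat.cast_nonneg _
      linarith
    exact mul_le_mul g3 (pow_le_pow_right₀ hK1 (by omega)) (by positivity) (Nat.cast_nonneg _)
  · exact h4.trans (pow_le_pow_right₀ hK1 (by omega))

theorem no_cop {m₀ : ℕ} (hm₀ : 2 ≤ m₀) {C : ℝ} (hC : ∀ (r : ℕ) (K : ℝ) (A : Finset (Fin r → ℤ)), A.Nonempty →
    ((A + A).card : ℝ) ≤ K * A.card → Concl C K A) :
    ∃ N : ℕ, 1 ≤ N ∧ ∀ {Φ : Type*} [AddCommGroup Φ] [DecidableEq Φ],
      (∀ (m : ℕ) (x : Φ), m.Coprime m₀ → m • x = 0 → x = 0) → ∀ (K : ℝ) (A : Finset Φ), A.Nonempty →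
      ((A + A).card : ℝ) ≤ K * A.card →
      ∃ (d : ℕ) (X : Finset (Fin d → ℤ)) (ψ : (Fin d → ℤ) →+ Φ) (H : AddSubgroup Φ) (g : Φ),
        Data (N * K ^ N) A X ψ H g := by
  classical
  obtain ⟨n, hn1, hn, hCK⟩ := nat_const C
  obtain ⟨c, hc1, hwm⟩ := wm_nat hm₀
  refine ⟨(2 * c) ^ (4 * n) + (4 * c + 3) * (4 * n), by
    have := Nat.one_le_pow (4 * n) (2 * c) (by omega)
    omega, ?_⟩
  intro Φ _ _ hodd K A hA hK
  have hK1 := one_le hA hK
  have hK0 : 0 < K := by linarith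
  have hApos : (0 : ℝ) < A.card := by exact_mod_cast hA.card_pos
  obtain ⟨P, S, T, hPfin, hAP, hS, hT, hcov⟩ := hwm K A hA hK
  -- the popular coset
  obtain ⟨t, ht, ht2⟩ := pigeon T A A hA (fun t a => a - t ∈ P ⊔ AddSubgroup.closure (S : Set Φ))
    subset_rfl (by
      intro a ha
      obtain ⟨t, ht, o, ⟨m, hm, hmo⟩, hmem⟩ := hcov a ha
      rw [hodd m o hm hmo, sub_zero] at hmem
      exact ⟨t, ht, hmem⟩)
  set A' := A.filter (fun a => a - t ∈ P ⊔ AddSubgroup.closure (S : Set Φ)) with hA'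
  have hbig : (A.card : ℝ) ≤ K ^ c * A'.card := by
    calc (A.card : ℝ) ≤ T.card * A'.card := by exact_mod_cast ht2
      _ ≤ K ^ c * A'.card := mul_le_mul_of_nonneg_right hT (Nat.cast_nonneg _)
  have hA'ne : A'.Nonempty := by
    rw [← Finset.card_pos]
    by_contra hcon
    have h0 : A'.card = 0 := by omega
    rw [h0, Nat.cast_zero, mul_zero] at hbig
    linarith
  have hsub : A' ⊆ A := Finset.filter_subset _ _
  -- translation
  set A₂ := A'.image (fun a => a - t) with hA₂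
  have hA₂card : A₂.card = A'.card := Finset.card_image_of_injective _ sub_left_injective
  have hA₂ne : A₂.Nonempty := hA'ne.image _
  have hA₂K : ((A₂ + A₂).card : ℝ) ≤ K ^ (c + 1) * A₂.card := by
    have h1 : (A₂ + A₂).card ≤ (A + A).card := by
      have h2 : A₂ + A₂ ⊆ (A + A).image (fun a => a - (t + t)) := by
        intro z hz
        obtain ⟨x, hx, y, hy, rfl⟩ := Finset.mem_add.1 hz
        obtain ⟨a, ha, rfl⟩ := Finset.mem_image.1 hx
        obtain ⟨b, hb, rfl⟩ := Finset.mem_image.1 hy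
        refine Finset.mem_image.2 ⟨a + b, Finset.add_mem_add (hsub ha) (hsub hb), ?_⟩
        abel
      exact (Finset.card_le_card h2).trans Finset.card_image_le
    calc ((A₂ + A₂).card : ℝ) ≤ (A + A).card := by exact_mod_cast h1
      _ ≤ K * A.card := hK
      _ ≤ K * (K ^ c * A'.card) := mul_le_mul_of_nonneg_left hbig hK0.le
      _ = K ^ (c + 1) * A₂.card := by rw [hA₂card]; ring
  -- the quotient
  set q := QuotientAddGroup.mk' P with hq
  set A₁ := A₂.image q with hA₁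
  have hA₁ne : A₁.Nonempty := hA₂ne.image _
  have hA₁K : ((A₁ + A₁).card : ℝ) ≤ K ^ ((c + 1) * 3) * A₁.card := by
    have := sumset_fst q hA₂ne hA₂K
    rw [← pow_mul] at this
    exact this
  -- few generators
  set π : (Fin S.card → ℤ) →+ Φ ⧸ P := lin (fun i => q (S.equivFin.symm i : Φ)) with hπ
  have hAπ : ∀ α ∈ A₁, ∃ x, π x = α := by
    intro α hα
    obtain ⟨z, hz, rfl⟩ := Finset.mem_image.1 hα
    obtain ⟨a, ha, rfl⟩ := Finset.mem_image.1 hz
    have h1 : P ⊔ AddSubgroup.closure (S : Set Φ) ≤ π.range.comap q := by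
      refine sup_le ?_ ?_
      · intro p hp
        rw [AddSubgroup.mem_comap]
        have : q p = 0 := (QuotientAddGroup.eq_zero_iff _).2 hp
        rw [this]
        exact AddSubgroup.zero_mem _
      · rw [AddSubgroup.closure_le]
        intro x hx
        change q x ∈ π.range
        refine ⟨Pi.single (S.equivFin ⟨x, hx⟩) 1, ?_⟩
        rw [hπ, lin_single, Equiv.symm_apply_apply]
    have h2 := h1 (Finset.mem_filter.1 ha).2
    exact h2
  obtain ⟨d, B, ψ₁, H₁, T₁, hd, hB, hH₁, hvol₁, hT₁, hcov₁⟩ :=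
    rank_case hC π A₁ hA₁ne hAπ hA₁K
  set Kt : ℝ := 2 ^ S.card * K ^ ((c + 1) * 3) with hKt
  have hc1' : (1 : ℝ) ≤ c := by exact_mod_cast hc1
  have hKt1 : 1 ≤ Kt := one_le_mul_of_one_le_of_one_le (one_le_pow₀ (by norm_num))
    (one_le_pow₀ hK1)
  have hKt2 : Kt ≤ c * K ^ (4 * c + 3) := by
    calc Kt ≤ (c * K ^ c) * K ^ ((c + 1) * 3) := mul_le_mul_of_nonneg_right hS (by positivity)
      _ = c * K ^ (4 * c + 3) := by ring
  obtain ⟨b, hb⟩ : ∃ b : ℝ, b = c * K ^ (4 * c + 3) := ⟨_, rfl⟩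
  rw [← hb] at hKt2
  have hbK : K ^ (4 * c + 3) ≤ b := by
    rw [hb]
    exact le_mul_of_one_le_left (by positivity) hc1'
  have hb1 : 1 ≤ b := hKt1.trans hKt2
  have hpK : ∀ i : ℕ, (1 : ℝ) ≤ K ^ i := fun i => one_le_pow₀ hK1
  set M : ℝ := (2 * b) ^ (2 * n) with hM
  have hbase : 2 * b ≤ M := by
    calc 2 * b = (2 * b) ^ 1 := (pow_one _).symm
      _ ≤ (2 * b) ^ (2 * n) := pow_le_pow_right₀ (by linarith) (by omega)
  have hM1 : 1 ≤ M := by linarith
  have hdd : (4 : ℝ) ^ d ≤ M := by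
    have hlog0 : 0 ≤ Real.log (2 * Kt) := Real.log_nonneg (by linarith)
    have e1 : (d : ℝ) ≤ n * Real.log (2 * Kt) := hd.trans (mul_le_mul_of_nonneg_right hn hlog0)
    have e2 : Real.log 4 ≤ 2 := by
      rw [show (4 : ℝ) = 2 ^ 2 by norm_num, Real.log_pow]
      have := Real.log_two_lt_d9
      push_cast
      linarith
    have e3 : Real.log ((4 : ℝ) ^ d) ≤ Real.log ((2 * Kt) ^ (2 * n)) := by
      rw [Real.log_pow, Real.log_pow]
      calc (d : ℝ) * Real.log 4 ≤ d * 2 := mul_le_mul_of_nonneg_left e2 (Nat.cast_nonneg _)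
        _ ≤ (n * Real.log (2 * Kt)) * 2 := mul_le_mul_of_nonneg_right e1 (by norm_num)
        _ = ((2 * n : ℕ) : ℝ) * Real.log (2 * Kt) := by push_cast; ring
    have e4 : (4 : ℝ) ^ d ≤ (2 * Kt) ^ (2 * n) :=
      (Real.log_le_log_iff (by positivity) (by positivity)).1 e3
    exact e4.trans (pow_le_pow_left₀ (by linarith) (by linarith) _)
  have hTM : (T₁.card : ℝ) ≤ M := by
    have e1 : (n : ℝ) ≤ 2 ^ n := by exact_mod_cast (Nat.lt_two_pow_self).le
    calc (T₁.card : ℝ) ≤ C * Kt ^ C := hT₁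
      _ ≤ n * Kt ^ n := hCK Kt hKt1
      _ ≤ 2 ^ n * b ^ n :=
          mul_le_mul e1 (pow_le_pow_left₀ (by linarith) hKt2 _) (by positivity) (by positivity)
      _ = (2 * b) ^ n := by rw [← mul_pow]
      _ ≤ (2 * b) ^ (2 * n) := pow_le_pow_right₀ (by linarith) (by omega)
  -- lifts
  have hqs : Function.Surjective q := QuotientAddGroup.mk'_surjective P
  obtain ⟨ψ, hψ⟩ := lift_hom q hqs ψ₁
  obtain ⟨hfinH, hcardH⟩ := comap_card P H₁
  choose r hr using hqs
  -- the size of the set modulo `P`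
  have hA₁P : (A₁.card : ℝ) * Nat.card P ≤ 2 * K ^ c * A.card := by
    refine le_trans ?_ hAP
    have h1 : ∀ α ∈ A₁, ∃ a ∈ A, q (a - t) = α := by
      intro α hα
      obtain ⟨z, hz, rfl⟩ := Finset.mem_image.1 hα
      obtain ⟨a, ha, rfl⟩ := Finset.mem_image.1 hz
      exact ⟨a, hsub ha, rfl⟩
    choose! cc hcc1 hcc2 using h1
    have hfinAP : ((A : Set Φ) + (P : Set Φ)).Finite := (Finset.finite_toSet A).add (Set.toFinite _)
    have h3 : Set.InjOn (fun z : (Φ ⧸ P) × Φ => cc z.1 + z.2) ((A₁ : Set (Φ ⧸ P)) ×ˢ (P : Set Φ)) := by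
      rintro ⟨α, p⟩ ⟨hα, hp⟩ ⟨β, p'⟩ ⟨hβ, hp'⟩ h
      simp only at hα hp hβ hp' h
      have h4 : q (cc α - t) = q (cc β - t) := by
        have e1 : cc α - t = (cc β - t) + (p' - p) := by
          have : cc α = cc β + p' - p := by rw [← h]; abel
          rw [this]; abel
        rw [e1, map_add]
        have : q (p' - p) = 0 := (QuotientAddGroup.eq_zero_iff _).2 (P.sub_mem hp' hp)
        rw [this, add_zero]
      rw [hcc2 α (Finset.mem_coe.1 hα), hcc2 β (Finset.mem_coe.1 hβ)] at h4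
      subst h4
      rw [add_right_inj] at h
      rw [h]
    have h4 := Set.ncard_le_ncard_of_injOn (t := (A : Set Φ) + (P : Set Φ))
      (fun z : (Φ ⧸ P) × Φ => cc z.1 + z.2) (by
        rintro ⟨α, p⟩ ⟨hα, hp⟩
        exact Set.add_mem_add (Finset.mem_coe.2 (hcc1 α (Finset.mem_coe.1 hα))) hp) h3 hfinAP
    rw [Set.ncard_prod, Set.ncard_coe_finset] at h4
    exact_mod_cast h4
  have hvol : ((lat B).ncard : ℝ) * Nat.card (H₁.comap q) ≤ M * A.card := by
    calc ((lat B).ncard : ℝ) * Nat.card (H₁.comap q)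
        ≤ (lat B).ncard * (Nat.card H₁ * Nat.card P) := by
          exact_mod_cast Nat.mul_le_mul_left _ hcardH
      _ = ((lat B).ncard * Nat.card H₁) * Nat.card P := by ring
      _ ≤ A₁.card * Nat.card P := by
          refine mul_le_mul_of_nonneg_right ?_ (Nat.cast_nonneg _)
          exact_mod_cast hvol₁
      _ ≤ 2 * K ^ c * A.card := hA₁P
      _ ≤ M * A.card := by
          refine mul_le_mul_of_nonneg_right ?_ hApos.le
          have : K ^ c ≤ K ^ (4 * c + 3) := pow_le_pow_right₀ hK1 (by omega)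
          linarith
  have hcov₂ : Cov B ψ (H₁.comap q) (T₁.image (fun y => t + r y)) A' := by
    intro a ha
    obtain ⟨t₁, ht₁, x, hx, h, hh, e⟩ := hcov₁ (q (a - t))
      (Finset.mem_image_of_mem _ (Finset.mem_image_of_mem _ ha))
    refine ⟨t + r t₁, Finset.mem_image_of_mem _ ht₁, x, hx, a - t - r t₁ - ψ x, ?_, by abel⟩
    rw [AddSubgroup.mem_comap, map_sub, map_sub, e, hr, hψ]
    have : t₁ + ψ₁ x + h - t₁ - ψ₁ x = h := by abel
    rw [this]
    exact hh
  have hT₂ : (((T₁.image (fun y => t + r y)).card : ℕ) : ℝ) ≤ M :=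
    (by exact_mod_cast Finset.card_image_le : (((T₁.image (fun y => t + r y)).card : ℕ) : ℝ) ≤
      T₁.card).trans hTM
  have hbigM : (A.card : ℝ) ≤ M * A'.card := by
    refine hbig.trans (mul_le_mul_of_nonneg_right ?_ (Nat.cast_nonneg _))
    have : K ^ c ≤ K ^ (4 * c + 3) := pow_le_pow_right₀ hK1 (by omega)
    linarith
  obtain ⟨X, g, hD⟩ := data_of_cover hA'ne hsub hM1 hbigM hdd hB hfinH hvol hT₂ hcov₂
  refine ⟨d, X, ψ, H₁.comap q, g, hD.mono ?_⟩
  have e1 : M ^ 2 = (((2 * c) ^ (4 * n) : ℕ) : ℝ) * K ^ ((4 * c + 3) * (4 * n)) := by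
    rw [hM, hb, ← pow_mul, ← mul_assoc, mul_pow, ← pow_mul]
    push_cast
    congr 2
    · ring
    · ring
  rw [e1]
  refine mul_le_mul ?_ (pow_le_pow_right₀ hK1 (Nat.le_add_left _ _)) (by positivity)
    (Nat.cast_nonneg _)
  exact_mod_cast Nat.le_add_right _ _

end Pool.Agent.X164.WM
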