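import Pool.Agent.X164.WM.Rank
import Pool.Agent.TH404.Tor.Final
import Pool.Agent.H137R2.Weak.Period
set_option autoImplicit false

/-! Set form. -/

open scoped Classical Pointwise
set_option linter.unusedSectionVars false
set_option linter.unusedVariables false

namespace Pool.Agent.X164.WM

open H137.Weak

variable {Γ : Type*} [AddCommGroup Γ]

theorem shrink {m : ℕ} (hm : 1 ≤ m) (P : AddSubgroup Γ) [Finite P]
    (hP : ∀ x ∈ P, ∃ k : ℕ, (m ^ k) • x = 0) (n : ℕ) (hn : n ≠ 0) :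
    ∃ P' ≤ P, Nat.card P' ≤ n ∧ (P' = P ∨ n < m * Nat.card P') := by
  let R : ℕ → Prop := fun k => ∃ H' : AddSubgroup Γ, H' ≤ P ∧ Nat.card H' = k
  have hP1 : R 1 := ⟨⊥, bot_le, by simp⟩
  obtain ⟨H', hle, hcard⟩ := Nat.findGreatest_spec (P := R) (Nat.one_le_iff_ne_zero.2 hn) hP1
  set b := Nat.findGreatest R n with hb
  have hna : b ≤ n := Nat.findGreatest_le n
  refine ⟨H', hle, by rw [hcard]; exact hna, ?_⟩
  by_cases hne : H' = P
  · exact Or.inl hne
  · right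
    obtain ⟨g, hgP, hgH'⟩ := SetLike.exists_of_lt (lt_of_le_of_ne hle hne)
    -- the last multiple outside `H'`
    have hex : ∃ k : ℕ, (m ^ k) • g ∈ H' := by
      obtain ⟨k, hk⟩ := hP g hgP
      exact ⟨k, by rw [hk]; exact H'.zero_mem⟩
    have hk0 : Nat.find hex ≠ 0 := by
      intro h
      have h1 := Nat.find_spec hex
      rw [h, pow_zero, one_smul] at h1
      exact hgH' h1
    obtain ⟨k, hk⟩ := Nat.exists_eq_succ_of_ne_zero hk0
    set y := (m ^ k) • g with hy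
    have hyP : y ∈ P := P.nsmul_mem hgP _
    have hyH : y ∉ H' := Nat.find_min hex (m := k) (by omega)
    have hmy : m • y ∈ H' := by
      have h1 := Nat.find_spec hex
      rw [hk, Nat.succ_eq_add_one, pow_succ', mul_smul] at h1
      exact h1
    have hfH' : Finite H' := Finite.Set.subset (P : Set Γ) hle
    obtain ⟨hf2, hc2⟩ := Pool.Agent.TH404.Tor.sup_card H' y hm hmy
    have hle2 : H' ⊔ AddSubgroup.zmultiples y ≤ P :=
      sup_le hle ((AddSubgroup.zmultiples_le_of_mem hyP))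
    have hlt2 : H' < H' ⊔ AddSubgroup.zmultiples y := by
      refine lt_of_le_of_ne le_sup_left ?_
      intro he
      apply hyH
      rw [he]
      exact (le_sup_right : AddSubgroup.zmultiples y ≤ _) (AddSubgroup.mem_zmultiples y)
    have hcl : Nat.card H' < Nat.card (H' ⊔ AddSubgroup.zmultiples y : AddSubgroup Γ) := by
      have h1 : (H' : Set Γ) ⊂ ((H' ⊔ AddSubgroup.zmultiples y : AddSubgroup Γ) : Set Γ) := hlt2
      have h2 := Set.ncard_lt_ncard h1 (Set.toFinite _)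
      exact h2
    by_contra hcon
    push Not at hcon
    have h3 : Nat.card (H' ⊔ AddSubgroup.zmultiples y : AddSubgroup Γ) ≤ b :=
      Nat.le_findGreatest (hc2.trans hcon) ⟨_, hle2, rfl⟩
    rw [hcard] at hcl
    omega

/-- splitting off the part coprime to `m` -/
theorem split_cop (P : AddSubgroup Γ) {z : Γ} {m n k : ℕ} (hm : n.Coprime m) (h1 : n • z ∈ P)
    (h2 : (m ^ k) • (n • z) = 0) : ∃ o : Γ, n • o = 0 ∧ z - o ∈ P := by
  have hcop : IsCoprime (n : ℤ) ((m ^ k : ℕ) : ℤ) := by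
    rw [Nat.isCoprime_iff_coprime]
    exact Nat.Coprime.pow_right k hm
  obtain ⟨u, v, huv⟩ := hcop
  refine ⟨(v * ((m ^ k : ℕ) : ℤ)) • z, ?_, ?_⟩
  · have h3 : n • ((v * ((m ^ k : ℕ) : ℤ)) • z) = v • ((m ^ k) • (n • z)) := by
      rw [← natCast_zsmul, ← natCast_zsmul, ← natCast_zsmul, smul_smul, smul_smul, smul_smul]
      congr 1
      ring
    rw [h3, h2, smul_zero]
  · have h3 : z - (v * ((m ^ k : ℕ) : ℤ)) • z = u • (n • z) := by
      rw [← natCast_zsmul, smul_smul]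
      have h5 : z - (v * ((m ^ k : ℕ) : ℤ)) • z =
          (u * n + v * ((m ^ k : ℕ) : ℤ)) • z - (v * ((m ^ k : ℕ) : ℤ)) • z := by
        rw [huv, one_smul]
      rw [h5, ← sub_smul, add_sub_cancel_right]
    rw [h3]
    exact P.zsmul_mem h1 u

theorem comap_range_mul (m : ℕ) (P M : AddSubgroup Γ) (hPM : P ≤ M) :
    (mul m (M ⧸ P.addSubgroupOf M)).range.comap (QuotientAddGroup.mk' (P.addSubgroupOf M)) =
      (P ⊔ M.map (mul m Γ)).addSubgroupOf M := by
  ext x
  rw [AddSubgroup.mem_comap, AddSubgroup.mem_addSubgroupOf, AddSubgroup.mem_sup]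
  constructor
  · rintro ⟨y, hy⟩
    obtain ⟨y, rfl⟩ := QuotientAddGroup.mk_surjective y
    rw [mul_apply, ← QuotientAddGroup.mk_nsmul] at hy
    have h1 : ((m • y : M) : M ⧸ P.addSubgroupOf M) = (x : M ⧸ P.addSubgroupOf M) := hy
    rw [QuotientAddGroup.eq, AddSubgroup.mem_addSubgroupOf] at h1
    refine ⟨_, h1, m • (y : Γ), AddSubgroup.mem_map.2 ⟨y, y.2, rfl⟩, ?_⟩
    push_cast
    abel
  · rintro ⟨p, hp, z, hz, hpz⟩
    obtain ⟨y, hy, rfl⟩ := AddSubgroup.mem_map.1 hz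
    refine ⟨((⟨y, hy⟩ : M) : M ⧸ P.addSubgroupOf M), ?_⟩
    rw [mul_apply, ← QuotientAddGroup.mk_nsmul]
    change (((m • ⟨y, hy⟩ : M)) : M ⧸ P.addSubgroupOf M) = (x : M ⧸ P.addSubgroupOf M)
    rw [QuotientAddGroup.eq, AddSubgroup.mem_addSubgroupOf]
    have h1 : (((-(m • ⟨y, hy⟩) + x : M)) : Γ) = p := by
      push_cast
      rw [← hpz, mul_apply]
      abel
    rw [h1]
    exact hp

/-- generators of `M` modulo `P` and torsion coprime to `m` -/
theorem gen_final {m : ℕ} (hm : 2 ≤ m) {M P : AddSubgroup Γ} (hPM : P ≤ M) (hM : M.FG)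
    (hP : ∀ x ∈ P, ∃ k : ℕ, (m ^ k) • x = 0) (hne : (P ⊔ M.map (mul m Γ)).relIndex M ≠ 0) :
    ∃ S : Finset Γ, 2 ^ S.card ≤ (P ⊔ M.map (mul m Γ)).relIndex M ∧
      ∀ a ∈ M, ∃ o : Γ, (∃ n : ℕ, n.Coprime m ∧ n • o = 0) ∧
        a - o ∈ P ⊔ AddSubgroup.closure (S : Set Γ) := by
  have hMfg : AddGroup.FG M := (AddGroup.fg_iff_addSubgroup_fg M).2 hM
  have hQfg : AddGroup.FG (M ⧸ P.addSubgroupOf M) := inferInstance
  have hidx : (mul m (M ⧸ P.addSubgroupOf M)).range.index = (P ⊔ M.map (mul m Γ)).relIndex M := by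
    rw [AddSubgroup.relIndex, ← comap_range_mul m P M hPM,
      AddSubgroup.index_comap_of_surjective _ (QuotientAddGroup.mk'_surjective _)]
  obtain ⟨S, hS, hgen⟩ := rank_gen hm (Q := M ⧸ P.addSubgroupOf M) (by rw [hidx]; exact hne)
  rw [hidx] at hS
  set L : M ⧸ P.addSubgroupOf M → Γ := fun c => ((Quotient.out c : M) : Γ) with hL
  refine ⟨S.image L, ?_, ?_⟩
  · exact le_trans (Nat.pow_le_pow_right (by norm_num) Finset.card_image_le) hS
  · intro a ha
    obtain ⟨n, hn, y, hy, hmy⟩ := hgen ((⟨a, ha⟩ : M) : M ⧸ P.addSubgroupOf M)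
    -- lift `y`
    have hlift : ∀ y ∈ AddSubgroup.closure (S : Set (M ⧸ P.addSubgroupOf M)),
        ∃ z : M, (z : M ⧸ P.addSubgroupOf M) = y ∧
          (z : Γ) ∈ AddSubgroup.closure ((S.image L : Finset Γ) : Set Γ) := by
      intro y hy
      induction hy using AddSubgroup.closure_induction with
      | mem x hx =>
        refine ⟨Quotient.out x, Quotient.out_eq x, AddSubgroup.subset_closure ?_⟩
        exact Finset.mem_coe.2 (Finset.mem_image.2 ⟨x, Finset.mem_coe.1 hx, rfl⟩)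
      | zero => exact ⟨0, rfl, AddSubgroup.zero_mem _⟩
      | add x y _ _ hx hy =>
        obtain ⟨z1, h1, h2⟩ := hx
        obtain ⟨z2, h3, h4⟩ := hy
        exact ⟨z1 + z2, by rw [QuotientAddGroup.mk_add, h1, h3], AddSubgroup.add_mem _ h2 h4⟩
      | neg x _ hx =>
        obtain ⟨z1, h1, h2⟩ := hx
        exact ⟨-z1, by rw [QuotientAddGroup.mk_neg, h1], AddSubgroup.neg_mem _ h2⟩
    obtain ⟨z, hz, hzS⟩ := hlift y hy
    have h1 : n • (a - (z : Γ)) ∈ P := by
      rw [← hz, ← QuotientAddGroup.mk_sub, ← QuotientAddGroup.mk_nsmul,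
        QuotientAddGroup.eq_zero_iff, AddSubgroup.mem_addSubgroupOf] at hmy
      exact hmy
    obtain ⟨k, hk⟩ := hP _ h1
    obtain ⟨o, ho, hzo⟩ := split_cop P hn h1 hk
    refine ⟨o, ⟨n, hn, ho⟩, ?_⟩
    have h2 : a - o = (a - z - o) + z := by abel
    rw [h2]
    exact AddSubgroup.add_mem_sup hzo hzS

end Pool.Agent.X164.WM
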