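import Pool.Agent.X164.WM.NoCop
set_option autoImplicit false
set_option linter.unusedSectionVars false
set_option exponentiation.threshold 100000

/-! Groups whose elements of order coprime to `m₀` are killed by `m`. -/

namespace Pool.Agent.X164.WM

open Finset
open scoped Pointwise DirectSum
open Pool.Agent.Y806.DF Pool.Agent.X164.MG Pool.Agent.X164.RD

/-- the part of `n` coprime to `m₀` -/
theorem cop_part {m₀ : ℕ} (hm₀ : 2 ≤ m₀) {n : ℕ} (hn : n ≠ 0) :
    ∃ a b : ℕ, b.Coprime m₀ ∧ b ∣ n ∧ n ∣ m₀ ^ a * b := by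
  have hex : ∃ b : ℕ, b ≠ 0 ∧ b ∣ n ∧ ∃ a, n ∣ m₀ ^ a * b :=
    ⟨n, hn, dvd_rfl, 0, by rw [pow_zero, one_mul]⟩
  classical
  obtain ⟨hb0, hbn, a, ha⟩ := Nat.find_spec hex
  set b := Nat.find hex with hb
  by_contra hcon
  push Not at hcon
  have hnc : ¬ b.Coprime m₀ := fun h => hcon a b h hbn ha
  obtain ⟨p, hp, hpb, hpm⟩ := Nat.Prime.not_coprime_iff_dvd.1 hnc
  obtain ⟨b', hb'⟩ := hpb
  obtain ⟨m', hm'⟩ := hpm
  have h1 : b' ≠ 0 := by
    rintro rfl
    rw [mul_zero] at hb'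
    exact hb0 hb'
  have h2 : b' < b := by
    rw [hb']
    have := hp.two_le
    nlinarith [Nat.pos_of_ne_zero h1]
  refine Nat.find_min hex h2 ⟨h1, (Dvd.intro_left p hb'.symm).trans hbn, a + 1, ha.trans ?_⟩
  rw [hb', pow_succ, hm']
  exact ⟨m', by ring⟩

theorem split {G : Type*} [AddCommGroup G] [hfg : AddGroup.FG G] {m₀ m : ℕ} (hm₀ : 2 ≤ m₀)
    (hm : m.Coprime m₀) (hm1 : 0 < m)
    (htor : ∀ (k : ℕ) (x : G), k.Coprime m₀ → k • x = 0 → m • x = 0) :
    ∃ π : G →+ G, (∀ x, π (π x) = π x) ∧ (∀ x, π x = 0 → m • x = 0) ∧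
      ∀ x, m • π x = 0 → π x = 0 := by
  classical
  obtain ⟨r, ι, fι, p, hp, e, ⟨f⟩⟩ := AddCommGroup.equiv_free_prod_directSum_zmod G
  have hfinD : Finite (DirectSum ι fun i => ZMod (p i ^ e i)) := by
    have : ∀ i, NeZero (p i ^ e i) := fun i => ⟨pow_ne_zero _ (hp i).ne_zero⟩
    exact Finite.of_equiv _ (DirectSum.addEquivProd (fun i => ZMod (p i ^ e i))).symm.toEquiv
  -- the projection to the torsion part
  let t : G →+ G := f.symm.toAddMonoidHom.comp
    (((AddMonoidHom.inr (Fin r →₀ ℤ) (DirectSum ι fun i => ZMod (p i ^ e i))).comp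
      (AddMonoidHom.snd _ _)).comp f.toAddMonoidHom)
  have ht : ∀ x, t x = f.symm (0, (f x).2) := fun x => rfl
  have htt : ∀ x, t (t x) = t x := by
    intro x
    rw [ht (t x), ht x, AddEquiv.apply_symm_apply]
  obtain ⟨n₀, hn₀⟩ : ∃ n : ℕ, n = Nat.card (DirectSum ι fun i => ZMod (p i ^ e i)) := ⟨_, rfl⟩
  have hn₀pos : n₀ ≠ 0 := by
    rw [hn₀]
    exact Nat.card_pos.ne'
  have hkill : ∀ x, n₀ • t x = 0 := by
    intro x
    rw [ht, ← map_nsmul]
    have h1 : n₀ • ((0 : Fin r →₀ ℤ), (f x).2) = 0 := by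
      refine Prod.ext ?_ ?_
      · change n₀ • (0 : Fin r →₀ ℤ) = 0
        rw [smul_zero]
      · change n₀ • (f x).2 = 0
        rw [hn₀]
        exact card_nsmul_eq_zero'
    rw [h1, map_zero]
  obtain ⟨a, b, hb, -, e0, hab⟩ := cop_part hm₀ hn₀pos
  have hkill2 : ∀ x, (m₀ ^ a * m) • t x = 0 := by
    intro x
    have h1 : b • ((m₀ ^ a) • t x) = 0 := by
      rw [← mul_smul, mul_comm, hab, mul_comm, mul_smul, hkill x, smul_zero]
    have h2 := htor b _ hb h1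
    rw [← mul_smul, mul_comm] at h2
    exact h2
  have hcop : Nat.Coprime (m₀ ^ a) m := Nat.Coprime.pow_left _ hm.symm
  obtain ⟨u, hu1, hu2⟩ := Nat.chineseRemainder hcop 0 1
  have hdvd1 : m₀ ^ a ∣ u := (Nat.modEq_zero_iff_dvd).1 hu1
  have hmu : ∀ x, (m * u) • t x = 0 := by
    intro x
    obtain ⟨c, hc⟩ := hdvd1
    rw [hc, show m * (m₀ ^ a * c) = c * (m₀ ^ a * m) by ring, mul_smul, hkill2, smul_zero]
  have huu : ∀ x, (u : ℤ) • ((u : ℤ) • t x) = (u : ℤ) • t x := by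
    intro x
    have h1 : ((m₀ ^ a : ℕ) : ℤ) ∣ (u : ℤ) := by exact_mod_cast hdvd1
    have h2 : (m : ℤ) ∣ (u : ℤ) - 1 := by
      have := (Nat.modEq_iff_dvd).1 hu2
      rw [← dvd_neg, neg_sub]
      exact_mod_cast this
    have h3 : (((m₀ ^ a * m : ℕ)) : ℤ) ∣ (u : ℤ) * ((u : ℤ) - 1) := by
      push_cast at h1 ⊢
      exact mul_dvd_mul h1 h2
    obtain ⟨c, hc⟩ := h3
    have h4 : (u : ℤ) • ((u : ℤ) • t x) - (u : ℤ) • t x = 0 := by
      rw [← mul_smul, ← sub_smul]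
      have h5 : (u : ℤ) * u - u = c * ((m₀ ^ a * m : ℕ) : ℤ) := by linarith
      rw [h5, mul_smul, natCast_zsmul, hkill2, smul_zero]
    exact sub_eq_zero.1 h4
  let π : G →+ G := AddMonoidHom.id G - (u : ℤ) • t
  have hπ : ∀ x, π x = x - (u : ℤ) • t x := fun x => rfl
  have hπ1 : ∀ x, π (π x) = π x := by
    intro x
    have h1 : (u : ℤ) • t (π x) = 0 := by
      rw [hπ x, map_sub, map_zsmul, htt, smul_sub, huu, sub_self]
    rw [hπ (π x), h1, sub_zero]
  refine ⟨π, hπ1, ?_, ?_⟩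
  · intro x hx
    rw [hπ, sub_eq_zero] at hx
    rw [hx, natCast_zsmul, ← mul_smul]
    exact hmu x
  · intro x hx
    set y := π x with hy
    have hty : t y = y := by
      have h1 : (f y).1 = 0 := by
        have h2 : m • (f y).1 = 0 := by
          have h3 : f (m • y) = 0 := by rw [hx, map_zero]
          rw [map_nsmul] at h3
          exact congrArg Prod.fst h3
        ext i
        have h4 : m • (f y).1 i = 0 := by
          have := DFunLike.congr_fun h2 i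
          exact this
        rw [nsmul_eq_mul] at h4
        rcases mul_eq_zero.1 h4 with h5 | h5
        · have : m = 0 := by exact_mod_cast h5
          omega
        · exact h5
      rw [ht]
      have h2 : ((0 : Fin r →₀ ℤ), (f y).2) = f y := Prod.ext h1.symm rfl
      rw [h2, AddEquiv.symm_apply_apply]
    have h1 : π y = y := hπ1 x
    rw [hπ, hty, sub_eq_self] at h1
    have h2 : (m : ℤ) ∣ (u : ℤ) - 1 := by
      have := (Nat.modEq_iff_dvd).1 hu2
      rw [← dvd_neg, neg_sub]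
      exact_mod_cast this
    obtain ⟨c, hc⟩ := h2
    have h3 : (u : ℤ) = c * m + 1 := by linarith
    rw [h3, add_smul, one_smul, mul_smul, natCast_zsmul, hx, smul_zero, zero_add] at h1
    exact h1

/-- finitely generated groups whose elements of order coprime to `m₀` are killed by `m` -/
theorem cop_fg {m₀ : ℕ} (hm₀ : 2 ≤ m₀) {C : ℝ} (hC : ∀ (r : ℕ) (K : ℝ) (A : Finset (Fin r → ℤ)), A.Nonempty →
    ((A + A).card : ℝ) ≤ K * A.card → Concl C K A) {m : ℕ} (hm : m.Coprime m₀) (hm0 : 0 < m) :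
    ∃ N : ℕ, 1 ≤ N ∧ ∀ {G : Type*} [AddCommGroup G] [AddGroup.FG G] [DecidableEq G],
      (∀ (k : ℕ) (x : G), k.Coprime m₀ → k • x = 0 → m • x = 0) → ∀ (K : ℝ) (A : Finset G), A.Nonempty →
      ((A + A).card : ℝ) ≤ K * A.card →
      ∃ (d : ℕ) (X : Finset (Fin d → ℤ)) (ψ : (Fin d → ℤ) →+ G) (H : AddSubgroup G) (g : G),
        Data (N * K ^ N) A X ψ H g := by
  classical
  obtain ⟨n, hn1, hn⟩ := no_cop hm₀ hC
  obtain ⟨s, hs⟩ : ∃ s : ℕ, s = 41005 * (Nat.log 2 m + 1) := ⟨_, rfl⟩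
  refine ⟨4 * (n * 2 ^ n) * 2 ^ s + (((m + 4) * n) + (m + 1) + (m + 2) * s) + 1,
    Nat.le_add_left 1 _, ?_⟩
  intro G _ _ _ htor K A hA hK
  have hK1 := one_le hA hK
  have hK0 : 0 < K := by linarith
  obtain ⟨π₀, h1, h2, h3⟩ := split hm₀ hm hm0 htor
  set π : G →+ π₀.range := π₀.rangeRestrict with hπ
  have hπa : ∀ x, (π x : G) = π₀ x := fun x => rfl
  set ψ : π₀.range →+ G := π₀.range.subtype with hψ
  have hπψ : ∀ y, π (ψ y) = y := by
    rintro ⟨y, x, rfl⟩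
    exact Subtype.ext (h1 x)
  have hker : ∀ x, π x = 0 → m • x = 0 := by
    intro x hx
    exact h2 x (by rw [← hπa, hx]; rfl)
  have hno : ∀ y : π₀.range, m • y = 0 → y = 0 := by
    rintro ⟨y, x, rfl⟩ hy
    exact Subtype.ext (h3 x (congrArg Subtype.val hy))
  have hΦ : ∀ x y : π₀.range, m • x = m • y → x = y := by
    intro x y hxy
    have : m • (x - y) = 0 := by rw [smul_sub, hxy, sub_self]
    exact sub_eq_zero.1 (hno _ this)
  have hodd : ∀ (k : ℕ) (y : π₀.range), k.Coprime m₀ → k • y = 0 → y = 0 := by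
    intro k y hk hy
    refine hno y (Subtype.ext ?_)
    have := htor k (y : G) hk (by
      have := congrArg Subtype.val hy
      simpa using this)
    simpa using this
  have hF : ∀ y : π.ker, m • y = 0 := fun y => Subtype.ext (by
    rw [AddSubgroup.coe_nsmul, AddSubgroup.coe_zero]
    exact hker y y.2)
  have hpop := pop_big π (proj hπψ) hF hΦ (proj_inj hπψ) hA hK
  have hBpos : (0 : ℝ) < (A.image π).card := by exact_mod_cast (hA.image π).card_pos
  have hpne : (pop π A).Nonempty := by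
    rw [← Finset.card_pos]
    by_contra hcon
    have h0 : (pop π A).card = 0 := by omega
    rw [h0, Nat.cast_zero, mul_zero] at hpop
    linarith
  have hK₂ : ((pop π A + pop π A).card : ℝ) ≤ (2 * K ^ (m + 4)) * (pop π A).card := by
    have g1 : ((pop π A + pop π A).card : ℝ) ≤ (A.image π + A.image π).card := by
      exact_mod_cast Finset.card_le_card
        (Finset.add_subset_add (Finset.filter_subset _ _) (Finset.filter_subset _ _))
    calc ((pop π A + pop π A).card : ℝ) ≤ K ^ 3 * (A.image π).card :=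
          g1.trans (sumset_fst π hA hK)
      _ ≤ K ^ 3 * (2 * K ^ (m + 1) * (pop π A).card) :=
          mul_le_mul_of_nonneg_left hpop (by positivity)
      _ = _ := by rw [show m + 4 = 3 + (m + 1) by omega, pow_add]; ring
  have hK21 : (1 : ℝ) ≤ 2 * K ^ (m + 4) := by
    have : (1 : ℝ) ≤ K ^ (m + 4) := one_le_pow₀ hK1
    linarith
  obtain ⟨d, X, ψ₀, H₀, g₀, hD⟩ := hn hodd (2 * K ^ (m + 4)) (pop π A) hpne hK₂
  have hone : (1 : ℝ) ≤ (n : ℝ) * (2 * K ^ (m + 4)) ^ n := by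
    have e1 : (1 : ℝ) ≤ (n : ℝ) := by exact_mod_cast hn1
    exact one_le_mul_of_one_le_of_one_le e1 (one_le_pow₀ hK21)
  obtain ⟨H, g, hD'⟩ := transfer hm0 hΦ hπψ hker hA hK hone hD
  refine ⟨d, X, _, H, g, hD'.mono ?_⟩
  have g1 := bound (n * 2 ^ n) ((m + 4) * n) s hK1 m
  have g2 : (n : ℝ) * (2 * K ^ (m + 4)) ^ n = ((n * 2 ^ n : ℕ) : ℝ) * K ^ ((m + 4) * n) := by
    rw [mul_pow, ← pow_mul]
    push_cast
    ring
  rw [g2, ← hs]
  exact g1

/-- **Reduction to the torsion-free case.** -/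
theorem free_imp_cop {m₀ : ℕ} (hm₀ : 2 ≤ m₀) {C : ℝ} (hC : ∀ (r : ℕ) (K : ℝ) (A : Finset (Fin r → ℤ)), A.Nonempty →
    ((A + A).card : ℝ) ≤ K * A.card → Concl C K A) {m : ℕ} (hm : m.Coprime m₀) (hm0 : 0 < m) :
    ∃ C' : ℝ, ∀ {G : Type*} [AddCommGroup G] [DecidableEq G],
      (∀ (k : ℕ) (x : G), k.Coprime m₀ → k • x = 0 → m • x = 0) → ∀ (K : ℝ) (A : Finset G), A.Nonempty →
      ((A + A).card : ℝ) ≤ K * A.card → Concl C' K A := by
  classical
  obtain ⟨n, hn1, hn⟩ := cop_fg hm₀ hC hm hm0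
  refine ⟨((5000 * n ^ 5000 : ℕ) : ℝ), ?_⟩
  intro Γ _ _ htor K A hA hK
  set Γ₀ := AddSubgroup.closure (A : Set Γ) with hΓ₀
  have hfg : AddGroup.FG Γ₀ := (AddGroup.fg_iff_addSubgroup_fg _).2 ⟨A, rfl⟩
  set A₀ : Finset Γ₀ := A.preimage (fun v : Γ₀ => (v : Γ)) Subtype.val_injective.injOn with hA₀
  have himg : A₀.image Γ₀.subtype = A := by
    ext a
    simp only [hA₀, Finset.mem_image, Finset.mem_preimage]
    constructor
    · rintro ⟨v, hv, rfl⟩
      exact hv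
    · intro ha
      exact ⟨⟨a, AddSubgroup.subset_closure ha⟩, ha, rfl⟩
  have hcard : A₀.card = A.card := by
    rw [← himg, Finset.card_image_of_injective _ Γ₀.subtype_injective]
  have hcard2 : (A₀ + A₀).card = (A + A).card := by
    rw [← himg, ← Finset.image_add Γ₀.subtype,
      Finset.card_image_of_injective _ Γ₀.subtype_injective]
  have hA₀ne : A₀.Nonempty := by
    rw [← Finset.card_pos, hcard]
    exact hA.card_pos
  have hK' : ((A₀ + A₀).card : ℝ) ≤ K * A₀.card := by rw [hcard, hcard2]; exact hK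
  obtain ⟨d, X, ψ, H, g, hD⟩ := hn (G := Γ₀) (by
    intro k x hk hx
    refine Subtype.ext ?_
    have h1 := htor k (x : Γ) hk (by
      have := congrArg Subtype.val hx
      simpa using this)
    simpa using h1) K A₀ hA₀ne hK'
  have h1 := concl_of_data hA₀ne hK' hn1 hD
  have h2 := concl_map Γ₀.subtype Γ₀.subtype_injective h1
  rwa [himg] at h2

/-- **Q1 for the integers implies Q1 for groups in which torsion coprime to `m₀` is bounded.** -/
theorem int_imp_cop {m₀ : ℕ} (hm₀ : 2 ≤ m₀) {C : ℝ} (hC : ∀ (K : ℝ) (A : Finset ℤ), A.Nonempty →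
    ((A + A).card : ℝ) ≤ K * A.card → Concl C K A) {m : ℕ} (hm0 : 0 < m) :
    ∃ C' : ℝ, ∀ {G : Type*} [AddCommGroup G] [DecidableEq G],
      (∀ (k : ℕ) (x : G), k.Coprime m₀ → k • x = 0 → m • x = 0) →
      ∀ (K : ℝ) (A : Finset G), A.Nonempty →
      ((A + A).card : ℝ) ≤ K * A.card → Concl C' K A := by
  obtain ⟨N, hN1, hN⟩ := int_data hC
  obtain ⟨a, b, hb, hbm, hmb⟩ := cop_part hm₀ hm0.ne'
  have hb0 : 0 < b := Nat.pos_of_dvd_of_pos hbm hm0
  obtain ⟨C', hC'⟩ := free_imp_cop hm₀ (C := ((5000 * N ^ 5000 : ℕ) : ℝ)) (by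
    intro r K A hA hK
    obtain ⟨d, X, ψ, H, g, hD⟩ := hN r K A hA hK
    exact concl_of_data hA hK hN1 hD) hb hb0
  refine ⟨C', fun {G} _ _ htor K A hA hK => hC' (fun k x hk hx => ?_) K A hA hK⟩
  have h1 : addOrderOf x ∣ k := addOrderOf_dvd_iff_nsmul_eq_zero.2 hx
  have h2 : addOrderOf x ∣ m₀ ^ a * b :=
    (addOrderOf_dvd_iff_nsmul_eq_zero.2 (htor k x hk hx)).trans hmb
  have h3 : (addOrderOf x).Coprime (m₀ ^ a) :=
    Nat.Coprime.pow_right _ (Nat.Coprime.coprime_dvd_left h1 hk)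
  exact addOrderOf_dvd_iff_nsmul_eq_zero.1 (h3.dvd_of_dvd_mul_left h2)

end Pool.Agent.X164.WM
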